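import Mathlib

set_option autoImplicit false

namespace Pool.Agent.Lib.MP_67c69b_co

open Classical in
/-- Algebraic connectivity: the second entry of the increasing list of the eigenvalues, with
multiplicity, of the Laplacian (the roots of its characteristic polynomial). -/
noncomputable def algConn {V : Type} [Fintype V] (G : SimpleGraph V) : ℝ :=
  ((G.lapMatrix ℝ).charpoly.roots.sort (· ≤ ·)).getD 1 0

/-- The equation defining theta(d, D), with both sides defined; K = D/2 for even D and
K = (D+1)/2 for odd D. -/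
def ThetaEq (d D : ℕ) (θ : ℝ) : Prop :=
  Real.cos (((D + 1) / 2 : ℕ) * θ) ≠ 0 ∧
  (Even D → Real.cos θ ≠ 0 ∧
    Real.tan (((D + 1) / 2 : ℕ) * θ) = -((d : ℝ) / (d - 2)) * Real.tan θ) ∧
  (Odd D → √(d - 1) * (d - 2 * Real.cos θ ^ 2) + (d - 2) * Real.cos θ ≠ 0 ∧
    Real.tan (((D + 1) / 2 : ℕ) * θ) =
      -(((2 * √(d - 1) * Real.cos θ + d) * Real.sin θ) /
        (√(d - 1) * (d - 2 * Real.cos θ ^ 2) + (d - 2) * Real.cos θ)))

open Classical in
/-- A connected d-regular graph of diameter D whose algebraic connectivity equals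
B(d, D) = d - 2 sqrt(d-1) cos theta, theta the smallest positive root of the equation. -/
def DiamMaximal (d D : ℕ) {V : Type} [Fintype V] (G : SimpleGraph V) : Prop :=
  G.Connected ∧ G.IsRegularOfDegree d ∧ G.diam = D ∧
  ∃ θ : ℝ, IsLeast {t : ℝ | 0 < t ∧ ThetaEq d D t} θ ∧
    algConn G = d - 2 * √(d - 1) * Real.cos θ

end Pool.Agent.Lib.MP_67c69b_co
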