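import Mathlib

set_option autoImplicit false

namespace Pool.Agent.Lib.MP_67c69b_co

open Matrix

lemma exists_eig {V : Type} [Fintype V] [DecidableEq V] (L : Matrix V V ℝ) (hL : L.IsHermitian)
    (μ : ℝ) (f : V → ℝ) (hf0 : f ≠ 0) (hf : L *ᵥ f = μ • f) : ∃ i, hL.eigenvalues i = μ := by
  have h1 : μ ∈ spectrum ℝ L := by
    rw [← Matrix.spectrum_toLin', ← Module.End.hasEigenvalue_iff_mem_spectrum]
    apply Module.End.hasEigenvalue_of_hasEigenvector (x := f)
    refine ⟨?_, hf0⟩
    rw [Module.End.mem_eigenspace_iff]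
    simpa using hf
  rw [hL.spectrum_real_eq_range_eigenvalues] at h1
  exact h1

lemma second_root {V : Type} [Fintype V] [DecidableEq V] [Nonempty V] (L : Matrix V V ℝ)
    (hL : L.IsHermitian) (μ : ℝ) (hμ : 0 < μ) (h1 : L *ᵥ (fun _ => 1) = 0)
    (f : V → ℝ) (hf0 : f ≠ 0) (hf : L *ᵥ f = μ • f)
    (H : ∀ (e : ℝ) (u : V → ℝ), u ≠ 0 → ∑ i, u i = 0 → L *ᵥ u = e • u → μ ≤ e) :
    (L.charpoly.roots.sort (· ≤ ·)).getD 1 0 = μ := by
  obtain ⟨i0, hi0⟩ := exists_eig L hL 0 (fun _ => 1)
    (fun h => by have := congrFun h (Classical.arbitrary V); simp at this) (by simpa using h1)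
  obtain ⟨i1, hi1⟩ := exists_eig L hL μ f hf0 hf
  have hne : i0 ≠ i1 := by
    rintro rfl
    rw [hi0] at hi1
    exact hμ.ne hi1
  set u : V → V → ℝ := fun i => ⇑(hL.eigenvectorBasis i) with hu
  have hev : ∀ i, L *ᵥ u i = hL.eigenvalues i • u i := fun i => hL.mulVec_eigenvectorBasis i
  have horth : ∀ i j, u i ⬝ᵥ u j = if i = j then 1 else 0 := by
    intro i j
    have := orthonormal_iff_ite.1 hL.eigenvectorBasis.orthonormal j i
    rw [EuclideanSpace.inner_eq_star_dotProduct] at this
    simp only [star_trivial] at this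
    rw [this]
    simp [eq_comm]
  have hu0 : ∀ i, u i ≠ 0 := by
    intro i h
    have := horth i i
    rw [h] at this
    simp at this
  have hsym : Lᵀ = L := by
    have := hL.eq
    rwa [conjTranspose_eq_transpose_of_trivial] at this
  have hsum : ∀ i, hL.eigenvalues i * ∑ k, u i k = 0 := by
    intro i
    have e1 : (fun _ => (1 : ℝ)) ⬝ᵥ (L *ᵥ u i) = 0 := by
      rw [dotProduct_mulVec, ← hsym, vecMul_transpose, h1, zero_dotProduct]
    rw [hev] at e1
    simpa [dotProduct, Finset.mul_sum] using e1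
  have hge : ∀ i, i ≠ i0 → μ ≤ hL.eigenvalues i := by
    intro i hi
    by_cases hs : ∑ k, u i k = 0
    · exact H _ _ (hu0 i) hs (hev i)
    · exfalso
      have hz : hL.eigenvalues i = 0 := by
        rcases mul_eq_zero.1 (hsum i) with h | h
        · exact h
        · exact (hs h).elim
      let x : V → ℝ := (∑ k, u i k) • u i0 - (∑ k, u i0 k) • u i
      have hx0 : x ≠ 0 := by
        intro h
        have : u i0 ⬝ᵥ x = 0 := by rw [h]; simp
        simp only [x, dotProduct_sub, dotProduct_smul, horth] at this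
        simp [hi.symm] at this
        exact hs this
      have hx1 : ∑ k, x k = 0 := by
        simp only [x, Pi.sub_apply, Pi.smul_apply, smul_eq_mul, Finset.sum_sub_distrib,
          ← Finset.mul_sum]
        ring
      have hx2 : L *ᵥ x = (0 : ℝ) • x := by
        simp only [x, mulVec_sub, mulVec_smul, hev, hz, hi0]
        simp
      have := H 0 x hx0 hx1 hx2
      linarith
  rw [hL.roots_charpoly_eq_eigenvalues]
  have hu2 : (Finset.univ : Finset V).val =
      i0 ::ₘ i1 ::ₘ ((Finset.univ.erase i0).erase i1).val := by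
    have a1 : i1 ∈ (Finset.univ : Finset V).erase i0 := by simp [hne.symm]
    rw [Finset.erase_val, Multiset.cons_erase (Finset.mem_def.1 a1), Finset.erase_val,
      Multiset.cons_erase (Finset.mem_def.1 (Finset.mem_univ i0))]
  have hrest : ∀ b ∈ Multiset.map (RCLike.ofReal ∘ hL.eigenvalues)
      ((Finset.univ.erase i0).erase i1).val, μ ≤ (b : ℝ) := by
    intro b hb
    obtain ⟨i, hi, rfl⟩ := Multiset.mem_map.1 hb
    have : i ≠ i0 := by
      have := Finset.mem_def.2 hi
      simp only [Finset.mem_erase] at this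
      exact this.2.1
    exact hge i this
  rw [hu2, Multiset.map_cons, Multiset.map_cons]
  have e0 : (RCLike.ofReal ∘ hL.eigenvalues) i0 = (0 : ℝ) := hi0
  have e1 : (RCLike.ofReal ∘ hL.eigenvalues) i1 = μ := hi1
  rw [e0, e1, Multiset.sort_cons, Multiset.sort_cons]
  · rfl
  · exact hrest
  · intro b hb
    rcases Multiset.mem_cons.1 hb with rfl | hb
    · exact hμ.le
    · exact hμ.le.trans (hrest b hb)

lemma dd_nonneg {V : Type} [Fintype V] [DecidableEq V] (E : V → V → ℝ)
    (hs : ∀ i j, E i j = E j i) (hd : ∀ i, ∑ j, (if i = j then 0 else |E i j|) ≤ E i i)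
    (x : V → ℝ) : 0 ≤ ∑ i, ∑ j, E i j * x i * x j := by
  have h1 : ∀ i j, (if i = j then E i i * x i ^ 2 else 0) -
      ((if i = j then 0 else |E i j|) * x i ^ 2 + (if j = i then 0 else |E j i|) * x j ^ 2) / 2
      ≤ E i j * x i * x j := by
    intro i j
    by_cases h : i = j
    · subst h
      simp only [if_true]
      nlinarith
    · rw [if_neg h, if_neg h, if_neg (Ne.symm h), hs j i]
      rcases abs_cases (E i j) with ⟨a, b⟩ | ⟨a, b⟩
      · rw [a]; nlinarith [mul_nonneg b (sq_nonneg (x i + x j))]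
      · rw [a]; nlinarith [mul_nonneg (neg_nonneg.2 b.le) (sq_nonneg (x i - x j))]
  refine le_trans ?_ (Finset.sum_le_sum fun i _ => Finset.sum_le_sum fun j _ => h1 i j)
  have h2 : ∑ i, ∑ j, (if j = i then 0 else |E j i|) * x j ^ 2 =
      ∑ i, ∑ j, (if i = j then 0 else |E i j|) * x i ^ 2 := Finset.sum_comm
  simp only [Finset.sum_sub_distrib, ← Finset.sum_div, Finset.sum_add_distrib, h2,
    Finset.sum_ite_eq, Finset.mem_univ, if_true, ← Finset.sum_mul]
  rw [add_self_div_two, ← Finset.sum_sub_distrib]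
  refine Finset.sum_nonneg fun i _ => ?_
  have := hd i
  nlinarith [mul_nonneg (sub_nonneg.2 this) (sq_nonneg (x i))]

lemma eig_le {V : Type} [Fintype V] [DecidableEq V] (A P Q B : V → V → ℝ) (α β a s c N : ℝ)
    (hN : 0 < N) (hA : ∀ i j, A i j = A j i) (hP : ∀ i j, P i j = P j i)
    (hQ : ∀ i j, ∑ k, A i k * P k j = Q i j)
    (hR : ∀ i j, ∑ k, A i k * Q k j + α * Q i j + β * P i j = 0)
    (hd : ∀ i, ∑ j, (if i = j then 0 else
      |N * ((if i = j then a else 0) - s * A i j + c + P i j) - ∑ k, B i k * B j k|) ≤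
      N * ((if i = i then a else 0) - s * A i i + c + P i i) - ∑ k, B i k * B i k)
    (t : ℝ) (u : V → ℝ) (hu0 : u ≠ 0) (hu1 : ∑ i, u i = 0)
    (hu : ∀ i, ∑ k, A i k * u k = t * u i) : t ^ 2 + α * t + β = 0 ∨ s * t ≤ a := by
  by_cases hp : t ^ 2 + α * t + β = 0
  · exact Or.inl hp
  right
  have mv : ∀ M : V → V → ℝ, ∀ j, ∑ i, u i * ∑ k, A i k * M k j = t * ∑ k, u k * M k j := by
    intro M j
    simp only [Finset.mul_sum]
    rw [Finset.sum_comm]
    refine Finset.sum_congr rfl fun k _ => ?_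
    have := hu k
    calc ∑ i, u i * (A i k * M k j) = (∑ i, A k i * u i) * M k j := by
          rw [Finset.sum_mul]
          exact Finset.sum_congr rfl fun i _ => by rw [hA k i]; ring
      _ = t * (u k * M k j) := by rw [this]; ring
  have hPu : ∀ j, ∑ k, u k * P k j = 0 := by
    intro j
    have e1 : ∑ k, u k * Q k j = t * ∑ k, u k * P k j := by
      rw [← mv P j]
      exact Finset.sum_congr rfl fun i _ => by rw [hQ]
    have e2 : ∑ i, u i * (∑ k, A i k * Q k j + α * Q i j + β * P i j) = 0 := by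
      simp [hR]
    have e3 : ∑ i, u i * (∑ k, A i k * Q k j + α * Q i j + β * P i j) =
        ∑ i, u i * ∑ k, A i k * Q k j + α * ∑ i, u i * Q i j + β * ∑ i, u i * P i j := by
      simp only [Finset.mul_sum (s := Finset.univ) (f := fun i => u i * Q i j),
        Finset.mul_sum (s := Finset.univ) (f := fun i => u i * P i j), ← Finset.sum_add_distrib]
      exact Finset.sum_congr rfl fun i _ => by ring
    rw [e3, mv Q j, e1] at e2
    have e4 : (t ^ 2 + α * t + β) * ∑ k, u k * P k j = 0 := by linarith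
    rcases mul_eq_zero.1 e4 with h | h
    · exact (hp h).elim
    · exact h
  have key := dd_nonneg
    (fun i j => N * ((if i = j then a else 0) - s * A i j + c + P i j) - ∑ k, B i k * B j k)
    (fun i j => by
      simp only [hA i j, hP i j, @eq_comm _ i j]
      congr 1
      exact Finset.sum_congr rfl fun k _ => mul_comm _ _) hd u
  have t1 : ∑ i, ∑ j, (if i = j then a else 0) * u i * u j = a * ∑ i, u i ^ 2 := by
    simp only [ite_mul, zero_mul, Finset.sum_ite_eq, Finset.mem_univ, if_true, Finset.mul_sum]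
    exact Finset.sum_congr rfl fun i _ => by ring
  have t2 : ∑ i, ∑ j, A i j * u i * u j = t * ∑ i, u i ^ 2 := by
    rw [Finset.mul_sum]
    refine Finset.sum_congr rfl fun i _ => ?_
    calc ∑ j, A i j * u i * u j = u i * ∑ j, A i j * u j := by
          rw [Finset.mul_sum]; exact Finset.sum_congr rfl fun j _ => by ring
      _ = t * u i ^ 2 := by rw [hu]; ring
  have t3 : ∑ i, ∑ j, c * u i * u j = 0 := by
    simp only [← Finset.mul_sum, hu1, mul_zero, Finset.sum_const_zero]
  have t4 : ∑ i, ∑ j, P i j * u i * u j = 0 := by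
    rw [Finset.sum_comm]
    refine Finset.sum_eq_zero fun j _ => ?_
    rw [← Finset.sum_mul]
    have : ∑ i, P i j * u i = 0 := by
      rw [← hPu j]; exact Finset.sum_congr rfl fun i _ => mul_comm _ _
    rw [this, zero_mul]
  have t5 : ∑ i, ∑ j, (∑ k, B i k * B j k) * u i * u j = ∑ k, (∑ i, B i k * u i) ^ 2 := by
    have r : ∀ k, (∑ i, B i k * u i) ^ 2 = ∑ i, ∑ j, B i k * B j k * u i * u j := by
      intro k
      rw [sq, Finset.sum_mul_sum]
      exact Finset.sum_congr rfl fun i _ => Finset.sum_congr rfl fun j _ => by ring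
    simp only [r, Finset.sum_mul]
    rw [Finset.sum_comm (s := Finset.univ) (t := Finset.univ)
      (f := fun k i => ∑ j, B i k * B j k * u i * u j)]
    exact Finset.sum_congr rfl fun i _ => Finset.sum_comm
  have t6 : ∑ i, ∑ j, (N * ((if i = j then a else 0) - s * A i j + c + P i j) -
      ∑ k, B i k * B j k) * u i * u j =
      N * (∑ i, ∑ j, (if i = j then a else 0) * u i * u j - s * ∑ i, ∑ j, A i j * u i * u j +
        ∑ i, ∑ j, c * u i * u j + ∑ i, ∑ j, P i j * u i * u j) -
        ∑ i, ∑ j, (∑ k, B i k * B j k) * u i * u j := by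
    simp only [Finset.mul_sum (s := Finset.univ) (f := fun i => ∑ j, A i j * u i * u j),
      Finset.mul_sum (s := Finset.univ) (f := fun j => A _ j * u _ * u j),
      ← Finset.sum_add_distrib, ← Finset.sum_sub_distrib, Finset.mul_sum (s := Finset.univ) (a := N)]
    exact Finset.sum_congr rfl fun i _ => Finset.sum_congr rfl fun j _ => by ring
  rw [t6, t1, t2, t3, t4, t5] at key
  have pos : 0 < ∑ i, u i ^ 2 := by
    obtain ⟨i, hi⟩ := Function.ne_iff.1 hu0
    exact Finset.sum_pos' (fun j _ => sq_nonneg _) ⟨i, Finset.mem_univ _, by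
      have : u i ≠ 0 := hi
      positivity⟩
  have nn : 0 ≤ ∑ k, (∑ i, B i k * u i) ^ 2 := Finset.sum_nonneg fun k _ => sq_nonneg _
  by_contra hcon
  have : N * ((s * t - a) * ∑ i, u i ^ 2) > 0 := mul_pos hN (mul_pos (by linarith) pos)
  nlinarith

end Pool.Agent.Lib.MP_67c69b_co
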