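import Mathlib
import Pool.Agent.Lib.MP_67c69b_co.Defs
import Pool.Agent.Lib.MP_67c69b_co.Spectral

set_option autoImplicit false

namespace Pool.Agent.Lib.MP_67c69b_co

open Matrix

def sumTo (f : ℕ → ℤ) : ℕ → ℤ
  | 0 => 0
  | n + 1 => sumTo f n + f n

def allTo (p : ℕ → Bool) : ℕ → Bool
  | 0 => true
  | n + 1 => p n && allTo p n

def anyTo (p : ℕ → Bool) : ℕ → Bool
  | 0 => false
  | n + 1 => p n || anyTo p n

lemma sumTo_eq (f : ℕ → ℤ) (n : ℕ) : sumTo f n = ∑ i : Fin n, f i := by
  rw [Fin.sum_univ_eq_sum_range]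
  induction n with
  | zero => simp [sumTo]
  | succ n ih => rw [sumTo, Finset.sum_range_succ, ih]

lemma allTo_spec (p : ℕ → Bool) (n : ℕ) (h : allTo p n = true) (i : Fin n) : p i = true := by
  induction n with
  | zero => exact i.elim0
  | succ n ih =>
    simp only [allTo, Bool.and_eq_true] at h
    rcases Fin.eq_castSucc_or_eq_last i with ⟨j, rfl⟩ | rfl
    · exact ih h.2 j
    · exact h.1

lemma anyTo_spec (p : ℕ → Bool) (n : ℕ) (h : anyTo p n = true) : ∃ i : Fin n, p i = true := by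
  induction n with
  | zero => simp [anyTo] at h
  | succ n ih =>
    simp only [anyTo, Bool.or_eq_true] at h
    rcases h with h | h
    · exact ⟨Fin.last n, h⟩
    · obtain ⟨j, hj⟩ := ih h
      exact ⟨j.castSucc, hj⟩

def all2 (p : ℕ → ℕ → Bool) (n : ℕ) : Bool := allTo (fun i => allTo (fun j => p i j) n) n

lemma all2_spec (p : ℕ → ℕ → Bool) (n : ℕ) (h : all2 p n = true) (i j : Fin n) : p i j = true :=
  allTo_spec _ _ (allTo_spec _ _ h i) j

def bit (n big i j : ℕ) : Bool := Nat.testBit big (i * n + j)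

def natTab (n w big i j : ℕ) : ℕ := (big >>> (w * (i * n + j))) % 2 ^ w

def intTab (n w big i j : ℕ) : ℤ := (natTab n w big i j : ℤ) - (2 ^ (w - 1) : ℕ)

def ind (a : ℕ → ℕ → Bool) (i j : ℕ) : ℤ := if a i j then 1 else 0

def mkG (n : ℕ) (a : ℕ → ℕ → Bool) : SimpleGraph (Fin n) :=
  SimpleGraph.fromRel (fun i j => a i j = true)

def chkSym (n : ℕ) (a : ℕ → ℕ → Bool) : Bool :=
  all2 (fun i j => a i j == a j i) n && allTo (fun i => !a i i) n

lemma mkG_adj (n : ℕ) (a : ℕ → ℕ → Bool) (h : chkSym n a = true) (i j : Fin n) :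
    (mkG n a).Adj i j ↔ a i j = true := by
  simp only [chkSym, Bool.and_eq_true] at h
  have h1 := all2_spec _ _ h.1 i j
  have h2 := allTo_spec _ _ h.2 i
  simp only [beq_iff_eq, Bool.not_eq_true'] at h1 h2
  rw [mkG, SimpleGraph.fromRel_adj, ← h1, or_self]
  refine ⟨fun h => h.2, fun h => ⟨?_, h⟩⟩
  rintro rfl
  rw [h] at h2
  exact Bool.noConfusion h2

def chkReg (n : ℕ) (a : ℕ → ℕ → Bool) (d : ℕ) : Bool :=
  allTo (fun i => sumTo (fun j => ind a i j) n == d) n

def chkDist (n : ℕ) (a : ℕ → ℕ → Bool) (T : ℕ → ℕ → ℕ) (D : ℕ) : Bool :=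
  all2 (fun i j => decide (T i j ≤ D) &&
    (i == j || anyTo (fun w => a w j && decide (T i w < T i j)) n)) n

def chkPot (n : ℕ) (a : ℕ → ℕ → Bool) (φ : ℕ → ℕ) : Bool :=
  all2 (fun i j => !a i j || decide (φ i ≤ φ j + 1)) n

section
variable {n : ℕ} {a : ℕ → ℕ → Bool} {G : SimpleGraph (Fin n)}

open Classical in
lemma adjMatrix_eq (hG : ∀ i j : Fin n, G.Adj i j ↔ a i j = true) (i j : Fin n) :
    G.adjMatrix ℝ i j = (ind a i j : ℝ) := by
  rw [SimpleGraph.adjMatrix_apply, ind]
  by_cases h : a i j = true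
  · simp [h, hG]
  · simp [h, hG]

open Classical in
lemma regular_of (hG : ∀ i j : Fin n, G.Adj i j ↔ a i j = true) {d : ℕ}
    (h : chkReg n a d = true) : G.IsRegularOfDegree d := by
  intro i
  have h1 := allTo_spec _ _ h i
  simp only [beq_iff_eq, sumTo_eq] at h1
  have h2 := G.degree_eq_sum_if_adj (R := ℤ) i
  have h3 : (G.degree i : ℤ) = d := by
    rw [h2, ← h1]
    refine Finset.sum_congr rfl fun j _ => ?_
    simp only [ind, hG]
  exact_mod_cast h3

lemma edist_le_tab (hG : ∀ i j : Fin n, G.Adj i j ↔ a i j = true) {T : ℕ → ℕ → ℕ} {D : ℕ}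
    (h : chkDist n a T D = true) (i j : Fin n) : G.edist i j ≤ D := by
  have key : ∀ m : ℕ, ∀ j : Fin n, T i j ≤ m → G.edist i j ≤ m := by
    intro m
    induction m with
    | zero =>
      intro j hj
      have h1 := all2_spec _ _ h i j
      simp only [Bool.and_eq_true, Bool.or_eq_true, beq_iff_eq] at h1
      rcases h1.2 with h2 | h2
      · rw [Fin.ext h2]; simp
      · obtain ⟨w, hw⟩ := anyTo_spec _ _ h2
        simp only [Bool.and_eq_true, decide_eq_true_eq] at hw
        omega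
    | succ m ih =>
      intro j hj
      have h1 := all2_spec _ _ h i j
      simp only [Bool.and_eq_true, Bool.or_eq_true, beq_iff_eq] at h1
      rcases h1.2 with h2 | h2
      · rw [Fin.ext h2]; simp
      · obtain ⟨w, hw⟩ := anyTo_spec _ _ h2
        simp only [Bool.and_eq_true, decide_eq_true_eq] at hw
        have h3 := ih w (by omega)
        have h4 : G.edist w j ≤ 1 := SimpleGraph.edist_le_one_iff_adj_or_eq.2 (Or.inl ((hG _ _).2 hw.1))
        calc G.edist i j ≤ G.edist i w + G.edist w j := G.edist_triangle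
          _ ≤ m + 1 := add_le_add h3 h4
          _ = ((m + 1 : ℕ) : ℕ∞) := by simp
  have h1 := all2_spec _ _ h i j
  simp only [Bool.and_eq_true, decide_eq_true_eq] at h1
  exact key D j h1.1

lemma pot_le (hG : ∀ i j : Fin n, G.Adj i j ↔ a i j = true) {φ : ℕ → ℕ}
    (h : chkPot n a φ = true) {i j : Fin n} (w : G.Walk i j) : φ i ≤ φ j + w.length := by
  induction w with
  | nil => simp
  | @cons u v x huv w ih =>
    have h1 := all2_spec _ _ h u v
    rw [(hG _ _).1 huv] at h1
    simp only [Bool.not_true, Bool.false_or, decide_eq_true_eq] at h1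
    rw [SimpleGraph.Walk.length_cons]
    omega

lemma diam_of (hG : ∀ i j : Fin n, G.Adj i j ↔ a i j = true) {T : ℕ → ℕ → ℕ} {D : ℕ}
    (h : chkDist n a T D = true) {φ : ℕ → ℕ} (h2 : chkPot n a φ = true) (u v : Fin n)
    (hu : φ u = D) (hv : φ v = 0) : G.Connected ∧ G.diam = D := by
  have : Nonempty (Fin n) := ⟨u⟩
  have e1 : G.ediam ≤ D := SimpleGraph.ediam_le_of_edist_le (edist_le_tab hG h)
  have e2 : G.edist u v ≠ ⊤ := ne_top_of_le_ne_top (ENat.natCast_ne_top D) (edist_le_tab hG h u v)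
  obtain ⟨w, hw⟩ := SimpleGraph.exists_walk_of_edist_ne_top e2
  have e3 := pot_le hG h2 w
  have e4 : (D : ℕ∞) ≤ G.ediam := by
    refine le_trans ?_ (SimpleGraph.edist_le_ediam (u := u) (v := v))
    rw [← hw]
    exact_mod_cast (by omega : D ≤ w.length)
  refine ⟨SimpleGraph.connected_of_ediam_ne_top (ne_top_of_le_ne_top (ENat.natCast_ne_top D) e1), ?_⟩
  rw [SimpleGraph.diam, le_antisymm e1 e4]
  simp

end

def chkPQ (n : ℕ) (a : ℕ → ℕ → Bool) (P Q : ℕ → ℕ → ℤ) (α β : ℤ) : Bool :=
  all2 (fun i j => P i j == P j i) n &&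
  all2 (fun i j => sumTo (fun k => ind a i k * P k j) n == Q i j) n &&
  all2 (fun i j => sumTo (fun k => ind a i k * Q k j) n + α * Q i j + β * P i j == 0) n

def entry (n : ℕ) (a : ℕ → ℕ → Bool) (P B : ℕ → ℕ → ℤ) (r s c N : ℤ) (i j : ℕ) : ℤ :=
  N * ((if i = j then r else 0) - s * ind a i j + c + P i j) - sumTo (fun k => B i k * B j k) n

def chkDD (n : ℕ) (a : ℕ → ℕ → Bool) (P B : ℕ → ℕ → ℤ) (r s c N : ℤ) : Bool :=
  allTo (fun i => decide (sumTo (fun j => if i = j then 0 else
    ((entry n a P B r s c N i j).natAbs : ℤ)) n ≤ entry n a P B r s c N i i)) n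

lemma algConn_def {V : Type} [Fintype V] [i1 : DecidableEq V] (G : SimpleGraph V)
    [i2 : DecidableRel G.Adj] :
    algConn G = ((G.lapMatrix ℝ).charpoly.roots.sort (· ≤ ·)).getD 1 0 := by
  have e1 : i1 = fun a b => Classical.propDecidable (a = b) := Subsingleton.elim _ _
  have e2 : i2 = fun a b => Classical.propDecidable (G.Adj a b) := Subsingleton.elim _ _
  subst e1 e2
  rfl

theorem algConn_eq {n : ℕ} {a : ℕ → ℕ → Bool} {G : SimpleGraph (Fin n)}
    (hG : ∀ i j : Fin n, G.Adj i j ↔ a i j = true) {d : ℕ} (hreg : chkReg n a d = true)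
    (P Q B : ℕ → ℕ → ℤ) (α β r s c N : ℤ) (h1 : chkPQ n a P Q α β = true)
    (h2 : chkDD n a P B r s c N = true) (hN : 0 < N) (hs : 0 < s) (lam lam' : ℝ)
    (hsum : lam + lam' = -α) (hprod : lam * lam' = β) (hle : lam' ≤ lam) (hr : r ≤ s * lam)
    (hd : lam < d) (hneg : lam' < 0) (i0 j0 : Fin n) (hP0 : 0 < P i0 j0) (hQ0 : 0 ≤ Q i0 j0) :
    algConn G = d - lam := by
  classical
  have : Nonempty (Fin n) := ⟨i0⟩
  have reg := regular_of hG hreg
  simp only [chkPQ, Bool.and_eq_true] at h1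
  obtain ⟨⟨c1, c2⟩, c3⟩ := h1
  have hP : ∀ i j : Fin n, (P i j : ℝ) = P j i := fun i j => by
    have := all2_spec _ _ c1 i j
    simp only [beq_iff_eq] at this
    rw [this]
  have hQ : ∀ i j : Fin n, ∑ k : Fin n, (ind a i k : ℝ) * P k j = Q i j := fun i j => by
    have := all2_spec _ _ c2 i j
    simp only [beq_iff_eq, sumTo_eq] at this
    exact_mod_cast this
  have hR : ∀ i j : Fin n,
      ∑ k : Fin n, (ind a i k : ℝ) * Q k j + α * (Q i j : ℝ) + β * (P i j : ℝ) = 0 := fun i j => by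
    have := all2_spec _ _ c3 i j
    simp only [beq_iff_eq, sumTo_eq] at this
    exact_mod_cast this
  have hA : ∀ i j : Fin n, (ind a i j : ℝ) = ind a j i := fun i j => by
    rw [← adjMatrix_eq hG, ← adjMatrix_eq hG, SimpleGraph.adjMatrix_apply,
      SimpleGraph.adjMatrix_apply]
    simp only [G.adj_comm i j]
  have hE : ∀ i j : Fin n, (entry n a P B r s c N i j : ℝ) =
      N * ((if i = j then (r : ℝ) else 0) - s * (ind a i j : ℝ) + c + P i j) -
        ∑ k : Fin n, (B i k : ℝ) * B j k := fun i j => by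
    simp only [entry, sumTo_eq, Fin.val_inj]
    push_cast
    rfl
  have hD : ∀ i : Fin n, ∑ j : Fin n, (if i = j then 0 else
      |(N : ℝ) * ((if i = j then (r : ℝ) else 0) - s * (ind a i j : ℝ) + c + P i j) -
        ∑ k : Fin n, (B i k : ℝ) * B j k|) ≤
      N * ((if i = i then (r : ℝ) else 0) - s * (ind a i i : ℝ) + c + P i i) -
        ∑ k : Fin n, (B i k : ℝ) * B i k := fun i => by
    have := allTo_spec _ _ h2 i
    simp only [decide_eq_true_eq, sumTo_eq, Fin.val_inj, Int.natCast_natAbs] at this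
    rw [← hE i i]
    simp only [← hE]
    exact_mod_cast this
  have hL : ∀ (u : Fin n → ℝ) (i : Fin n),
      (G.lapMatrix ℝ *ᵥ u) i = d * u i - ∑ k : Fin n, (ind a i k : ℝ) * u k := fun u i => by
    rw [SimpleGraph.lapMatrix, sub_mulVec, Pi.sub_apply, SimpleGraph.degMatrix_mulVec_apply, reg i]
    simp only [mulVec, dotProduct, adjMatrix_eq hG]
  have main := second_root (G.lapMatrix ℝ) (G.isHermitian_lapMatrix ℝ) (d - lam) (by linarith)
    G.lapMatrix_mulVec_const_eq_zero (fun i => (Q i j0 : ℝ) - lam' * P i j0)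
    (fun h => by
      have := congrFun h i0
      simp only [Pi.zero_apply] at this
      have p1 : (0 : ℝ) < P i0 j0 := by exact_mod_cast hP0
      have p2 : (0 : ℝ) ≤ Q i0 j0 := by exact_mod_cast hQ0
      nlinarith)
    (by
      ext i
      rw [hL]
      have e1 := hQ i j0
      have e2 := hR i j0
      have e3 : ∑ k : Fin n, (ind a i k : ℝ) * ((Q k j0 : ℝ) - lam' * P k j0) =
          ∑ k : Fin n, (ind a i k : ℝ) * Q k j0 - lam' * ∑ k : Fin n, (ind a i k : ℝ) * P k j0 := by
        rw [Finset.mul_sum, ← Finset.sum_sub_distrib]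
        exact Finset.sum_congr rfl fun k _ => by ring
      rw [e3, e1]
      simp only [Pi.smul_apply, smul_eq_mul]
      have e4 : (α : ℝ) = -(lam + lam') := by linarith
      rw [e4, ← hprod] at e2
      linarith)
    (fun e u hu0 hu1 hu => by
      have h3 := eig_le (fun i j : Fin n => (ind a i j : ℝ)) (fun i j => P i j) (fun i j => Q i j)
        (fun i j => B i j) α β r s c N (by exact_mod_cast hN) hA hP hQ hR hD (d - e) u hu0 hu1
        (fun i => by
          have := congrFun hu i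
          rw [hL] at this
          simp only [Pi.smul_apply, smul_eq_mul] at this
          linarith)
      have hs' : (0 : ℝ) < s := by exact_mod_cast hs
      rcases h3 with h3 | h3
      · have e4 : (α : ℝ) = -(lam + lam') := by linarith
        rw [e4, ← hprod] at h3
        have : (d - e - lam) * (d - e - lam') = 0 := by linarith
        rcases mul_eq_zero.1 this with h | h <;> linarith
      · have : s * (d - e) ≤ s * lam := h3.trans hr
        have := le_of_mul_le_mul_left this hs'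
        linarith)
  rw [algConn_def]
  exact main

end Pool.Agent.Lib.MP_67c69b_co
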