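import Mathlib
import Pool.Agent.Lib.MP_67c69b_co.Defs

set_option autoImplicit false

namespace Pool.Agent.Lib.MP_67c69b_co

open Real

lemma isLeast_arccos (S : ℝ → Prop) (c : ℝ) (hc0 : 0 < c) (hc1 : c < 1) (h1 : S (arccos c))
    (h2 : ∀ t, 0 < sin t → c < cos t → ¬ S t) : IsLeast {t : ℝ | 0 < t ∧ S t} (arccos c) := by
  refine ⟨⟨arccos_pos.2 hc1, h1⟩, ?_⟩
  rintro t ⟨ht, hS⟩
  by_contra hlt
  have hlt : t < arccos c := not_le.1 hlt
  have hpi := arccos_le_pi c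
  refine h2 t (sin_pos_of_pos_of_lt_pi ht (by linarith)) ?_ hS
  have := cos_lt_cos_of_nonneg_of_le_pi ht.le hpi hlt
  rwa [cos_arccos (by linarith) hc1.le] at this

lemma thetaEq_even (t : ℝ) (hs : 0 < sin t) (hc : 0 < cos t) :
    ThetaEq 5 4 t ↔ 16 * cos t ^ 2 = 5 := by
  have hK : (((4 + 1) / 2 : ℕ) : ℝ) = 2 := by norm_num
  have ho : ¬ Odd 4 := by decide
  have he : Even 4 := by decide
  unfold ThetaEq
  rw [hK]
  simp only [ho, he, false_imp_iff, and_true, true_imp_iff, tan_eq_sin_div_cos, sin_two_mul,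
    cos_two_mul]
  constructor
  · rintro ⟨h1, h2, h3⟩
    field_simp at h3
    push_cast at h3
    nlinarith
  · intro h
    have h1 : 2 * cos t ^ 2 - 1 ≠ 0 := by intro h'; nlinarith
    refine ⟨h1, hc.ne', ?_⟩
    field_simp
    push_cast
    nlinarith

lemma theta_even : ∃ θ : ℝ, IsLeast {t : ℝ | 0 < t ∧ ThetaEq 5 4 t} θ ∧
    2 * √((5 : ℕ) - 1) * cos θ = √5 := by
  have s5 : √5 ^ 2 = 5 := sq_sqrt (by norm_num)
  have p5 : 0 < √5 := sqrt_pos.2 (by norm_num)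
  have l5 : √5 / 4 < 1 := by nlinarith
  have hcos : cos (arccos (√5 / 4)) = √5 / 4 := cos_arccos (by linarith) l5.le
  refine ⟨arccos (√5 / 4), isLeast_arccos _ _ (by positivity) l5 ?_ ?_, ?_⟩
  · rw [thetaEq_even]
    · rw [hcos]; nlinarith
    · exact sin_pos_of_pos_of_lt_pi (arccos_pos.2 l5) (arccos_lt_pi.2 (by linarith))
    · rw [hcos]; positivity
  · intro t hs hc
    rw [thetaEq_even t hs (by linarith)]
    nlinarith
  · have : √((5 : ℕ) - 1) = 2 := by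
      rw [show (((5 : ℕ) : ℝ) - 1) = 2 ^ 2 by norm_num, sqrt_sq (by norm_num)]
    rw [this, hcos]
    ring

lemma thetaEq_odd (t : ℝ) (hs : 0 < sin t) (hc : 0 < cos t) (h3 : cos (3 * t) ≠ 0) :
    ThetaEq 4 5 t ↔ (2 * √3 * cos t) ^ 2 - 2 * √3 * cos t - 3 = 0 := by
  have hK : (((5 + 1) / 2 : ℕ) : ℝ) = 3 := by norm_num
  have ho : Odd 5 := by decide
  have he : ¬ Even 5 := by decide
  have e3 : (((4 : ℕ) : ℝ) - 1) = 3 := by norm_num
  have s3 : √3 ^ 2 = 3 := sq_sqrt (by norm_num)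
  have p3 : 0 < √3 := sqrt_pos.2 (by norm_num)
  have hc1 : cos t ^ 2 ≤ 1 := cos_sq_le_one t
  have hsc : sin t ^ 2 = 1 - cos t ^ 2 := sin_sq t
  have hden : 0 < √3 * (4 - 2 * cos t ^ 2) + (4 - 2) * cos t := by
    have : 0 < √3 * (4 - 2 * cos t ^ 2) := mul_pos p3 (by linarith)
    linarith
  unfold ThetaEq
  rw [hK, e3]
  simp only [ho, he, false_imp_iff, true_and, true_imp_iff, tan_eq_sin_div_cos, ne_eq, h3,
    not_false_eq_true, Nat.cast_ofNat, hden.ne']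
  rw [← neg_div, div_eq_div_iff h3 hden.ne', sin_three_mul, cos_three_mul]
  have key : (3 * sin t - 4 * sin t ^ 3) * (√3 * (4 - 2 * cos t ^ 2) + (4 - 2) * cos t) -
      -((2 * √3 * cos t + 4) * sin t) * (4 * cos t ^ 3 - 3 * cos t) =
      (sin t * (2 * √3 * cos t + 4) / √3) * ((2 * √3 * cos t) ^ 2 - 2 * √3 * cos t - 3) := by
    have : sin t ^ 3 = sin t * (1 - cos t ^ 2) := by rw [← hsc]; ring
    rw [this]
    field_simp
    have s4 : √3 ^ 3 = 3 * √3 := by rw [pow_succ, s3]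
    ring_nf
    rw [s3, s4]
    ring
  have pos : 0 < sin t * (2 * √3 * cos t + 4) / √3 := by positivity
  rw [← sub_eq_zero, key, mul_eq_zero]
  simp [pos.ne']

lemma theta_odd : ∃ θ : ℝ, IsLeast {t : ℝ | 0 < t ∧ ThetaEq 4 5 t} θ ∧
    2 * √((4 : ℕ) - 1) * cos θ = (1 + √13) / 2 := by
  have s3 : √3 ^ 2 = 3 := sq_sqrt (by norm_num)
  have p3 : 0 < √3 := sqrt_pos.2 (by norm_num)
  have s13 : √13 ^ 2 = 13 := sq_sqrt (by norm_num)
  have p13 : 0 < √13 := sqrt_pos.2 (by norm_num)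
  have u13 : √13 < 4 := by nlinarith
  have v13 : 3 < √13 := by nlinarith
  have v3 : 3 / 2 < √3 := by nlinarith
  set c : ℝ := (1 + √13) / (4 * √3) with hc
  have c0 : 0 < c := by positivity
  have cx : 2 * √3 * c = (1 + √13) / 2 := by rw [hc]; field_simp; ring
  have c1 : c < 1 := by nlinarith
  have hcos : cos (arccos c) = c := cos_arccos (by linarith) c1.le
  refine ⟨arccos c, isLeast_arccos _ _ c0 c1 ?_ ?_, ?_⟩
  · rw [thetaEq_odd]
    · rw [hcos, cx]; nlinarith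
    · exact sin_pos_of_pos_of_lt_pi (arccos_pos.2 c1) (arccos_lt_pi.2 (by linarith))
    · rw [hcos]; exact c0
    · rw [cos_three_mul, hcos]
      have h1 : 12 * c ^ 2 = ((1 + √13) / 2) ^ 2 := by rw [← cx]; nlinarith
      have h2 : 4 * c ^ 2 - 3 < 0 := by nlinarith
      have h3 : c * (4 * c ^ 2 - 3) < 0 := mul_neg_of_pos_of_neg c0 h2
      intro h
      nlinarith
  · intro t hs ht hT
    rw [thetaEq_odd t hs (by linarith) (by simpa using hT.1)] at hT
    have : (1 + √13) / 2 < 2 * √3 * cos t := by rw [← cx]; nlinarith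
    nlinarith
  · rw [show (((4 : ℕ) : ℝ) - 1) = 3 by norm_num, hcos, cx]

end Pool.Agent.Lib.MP_67c69b_co
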